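import Mathlib
import Pool.Agent.R879.A5
import Pool.Agent.R879.AffCyc

set_option autoImplicit false

namespace Pool.Agent.Results.MP_927db0_al.BothFinite

/-- `ie(G)`: the number of positive integers `n` such that `G` has a non-normal subgroup of
order `n`. -/
noncomputable def ie (G : Type) [Group G] : ℕ :=
  Set.ncard {n : ℕ | 0 < n ∧ ∃ S : Subgroup G, Nat.card S = n ∧ ¬ S.Normal}

/-- `k` is a soluble group-theoretic number: `k > 0` and every finite group `G` with `ie(G) = k`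
is soluble. -/
def IsSolubleNumber (k : ℕ) : Prop :=
  0 < k ∧ ∀ (G : Type) [Group G] [Finite G], ie G = k → Group.IsSolvable G

/-- `k` is an absolutely simple group-theoretic number: `k > 0`, some finite simple group `G` has
`ie(G) = k`, and no finite group that is both non-soluble and non-simple has `ie(G) = k`. -/
def IsAbsolutelySimpleNumber (k : ℕ) : Prop :=
  0 < k ∧ (∃ (G : Type) (_ : Group G), Finite G ∧ IsSimpleGroup G ∧ ie G = k) ∧
    ∀ (G : Type) [Group G] [Finite G], ¬ Group.IsSolvable G → ¬ IsSimpleGroup G → ie G ≠ k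

section Product

variable {T H : Type} [Group T] [Group H] [Finite T] [Finite H]

/-- subgroups of a coprime direct product are direct products -/
lemma eq_prod (hc : Nat.Coprime (Nat.card T) (Nat.card H)) (S : Subgroup (T × H)) :
    S = (S.map (MonoidHom.fst T H)).prod (S.map (MonoidHom.snd T H)) := by
  apply le_antisymm
  · intro x hx
    exact ⟨⟨x, hx, rfl⟩, ⟨x, hx, rfl⟩⟩
  · rintro ⟨t, h⟩ ⟨⟨x, hx, hxt⟩, ⟨y, hy, hyh⟩⟩
    obtain ⟨k, hk1, hk2⟩ := Nat.chineseRemainder hc 1 0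
    obtain ⟨l, hl1, hl2⟩ := Nat.chineseRemainder hc 0 1
    have h1 : x ^ k = (t, 1) := by
      ext
      · simp only [Prod.pow_fst]
        have : x.1 = t := hxt
        rw [this, ← pow_mod_natCard, hk1, pow_mod_natCard, pow_one]
      · simp only [Prod.pow_snd]
        obtain ⟨s, hs⟩ := Nat.modEq_zero_iff_dvd.mp hk2
        rw [hs, pow_mul, pow_card_eq_one', one_pow]
    have h2 : y ^ l = (1, h) := by
      ext
      · simp only [Prod.pow_fst]
        obtain ⟨s, hs⟩ := Nat.modEq_zero_iff_dvd.mp hl1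
        rw [hs, pow_mul, pow_card_eq_one', one_pow]
      · simp only [Prod.pow_snd]
        have : y.2 = h := hyh
        rw [this, ← pow_mod_natCard, hl2, pow_mod_natCard, pow_one]
    have h3 : ((t, h) : T × H) = x ^ k * y ^ l := by rw [h1, h2]; simp
    rw [h3]
    exact S.mul_mem (S.pow_mem hx _) (S.pow_mem hy _)

lemma prod_normal_iff (A : Subgroup T) (B : Subgroup H) :
    (A.prod B).Normal ↔ A.Normal ∧ B.Normal := by
  constructor
  · intro h
    refine ⟨⟨fun a ha g => ?_⟩, ⟨fun b hb g => ?_⟩⟩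
    · have := h.conj_mem (a, 1) ⟨ha, B.one_mem⟩ (g, 1)
      exact this.1
    · have := h.conj_mem (1, b) ⟨A.one_mem, hb⟩ (1, g)
      exact this.2
  · rintro ⟨hA, hB⟩
    exact ⟨fun x hx g => ⟨hA.conj_mem _ hx.1 _, hB.conj_mem _ hx.2 _⟩⟩

lemma card_prod (A : Subgroup T) (B : Subgroup H) :
    Nat.card (A.prod B) = Nat.card A * Nat.card B := by
  rw [Nat.card_congr (A.prodEquiv B).toEquiv, Nat.card_prod]

lemma nonnormal_prod (hc : Nat.Coprime (Nat.card T) (Nat.card H)) (n : ℕ) :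
    (0 < n ∧ ∃ S : Subgroup (T × H), Nat.card S = n ∧ ¬ S.Normal) ↔
      ∃ a b, n = a * b ∧
        (((∃ A : Subgroup T, Nat.card A = a ∧ ¬ A.Normal) ∧ (∃ B : Subgroup H, Nat.card B = b)) ∨
        ((∃ A : Subgroup T, Nat.card A = a) ∧ (∃ B : Subgroup H, Nat.card B = b ∧ ¬ B.Normal))) := by
  constructor
  · rintro ⟨-, S, rfl, hS⟩
    rw [eq_prod hc S] at hS ⊢
    rw [prod_normal_iff] at hS
    refine ⟨_, _, card_prod _ _, ?_⟩
    by_cases hA : (S.map (MonoidHom.fst T H)).Normal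
    · right
      exact ⟨⟨_, rfl⟩, ⟨_, rfl, fun hB => hS ⟨hA, hB⟩⟩⟩
    · left
      exact ⟨⟨_, rfl, hA⟩, ⟨_, rfl⟩⟩
  · rintro ⟨a, b, rfl, (⟨⟨A, rfl, hA⟩, ⟨B, rfl⟩⟩ | ⟨⟨A, rfl⟩, ⟨B, rfl, hB⟩⟩)⟩
    · exact ⟨Nat.mul_pos Nat.card_pos Nat.card_pos, A.prod B, card_prod _ _,
        fun h => hA ((prod_normal_iff _ _).mp h).1⟩
    · exact ⟨Nat.mul_pos Nat.card_pos Nat.card_pos, A.prod B, card_prod _ _,
        fun h => hB ((prod_normal_iff _ _).mp h).2⟩

end Product

open Pool.Agent.R879 Pool.Agent.R879.AffCyc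

/-- index set of the orders -/
def X (a c : ℕ) : Finset (ℕ × ℕ × ℕ) :=
  (({2, 3, 4, 5, 6, 10, 12} : Finset ℕ) ×ˢ (Finset.range 3 ×ˢ Finset.range (a + 1))) ∪
  (({1, 60} : Finset ℕ) ×ˢ (Finset.range 2 ×ˢ Finset.Ioc (a - c) a))

lemma card_X (a c : ℕ) (h : c ≤ a) : (X a c).card = 21 * (a + 1) + 4 * c := by
  unfold X
  rw [Finset.card_union_of_disjoint]
  · simp only [Finset.card_product, Finset.card_range, Nat.card_Ioc]
    have h1 : ({2, 3, 4, 5, 6, 10, 12} : Finset ℕ).card = 7 := by decide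
    have h2 : ({1, 60} : Finset ℕ).card = 2 := by decide
    rw [h1, h2]
    have : a - (a - c) = c := by omega
    rw [this]
    ring
  · rw [Finset.disjoint_left]
    rintro ⟨d, i, j⟩ h1 h2
    simp only [Finset.mem_product, Finset.mem_insert, Finset.mem_singleton] at h1 h2
    omega

/-- the order attached to an index -/
def ord (P : ℕ) (x : ℕ × ℕ × ℕ) : ℕ := x.1 * (P ^ x.2.1 * 7 ^ x.2.2)

lemma ord_inj (P : ℕ) [hP : Fact P.Prime] (h7 : 7 < P) (a c : ℕ) :
    Set.InjOn (ord P) (X a c : Set (ℕ × ℕ × ℕ)) := by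
  have hP7 : Nat.Coprime P 7 := (Nat.coprime_primes hP.out (by norm_num)).mpr (by omega)
  have key : ∀ x ∈ X a c, x.1 ∣ 60 := by
    rintro ⟨d, i, j⟩ hx
    simp only [X, Finset.mem_union, Finset.mem_product, Finset.mem_insert,
      Finset.mem_singleton] at hx
    rcases hx with ⟨h | h | h | h | h | h | h, -⟩ | ⟨h | h, -⟩ <;> subst h <;> norm_num
  have hP60 : Nat.Coprime P 60 := by
    have h2 : Nat.Coprime P 2 := (Nat.coprime_primes hP.out (by norm_num)).mpr (by omega)
    have h3 : Nat.Coprime P 3 := (Nat.coprime_primes hP.out (by norm_num)).mpr (by omega)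
    have h5 : Nat.Coprime P 5 := (Nat.coprime_primes hP.out (by norm_num)).mpr (by omega)
    have : 60 = 2 * 2 * 3 * 5 := by norm_num
    rw [this]
    exact ((h2.mul_right h2).mul_right h3).mul_right h5
  rintro ⟨d, i, j⟩ hx ⟨d', i', j'⟩ hy hxy
  have hd : d ∣ 60 := key _ hx
  have hd' : d' ∣ 60 := key _ hy
  have hdP : Nat.Coprime d P := (Nat.Coprime.coprime_dvd_left hd hP60.symm)
  have hdP' : Nat.Coprime d' P := (Nat.Coprime.coprime_dvd_left hd' hP60.symm)
  have hd7 : Nat.Coprime d 7 := (Nat.Coprime.coprime_dvd_left hd (by norm_num))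
  have hd7' : Nat.Coprime d' 7 := (Nat.Coprime.coprime_dvd_left hd' (by norm_num))
  simp only [ord] at hxy
  -- compare the `d` parts
  have c1 : Nat.Coprime d (P ^ i' * 7 ^ j') := (hdP.pow_right _).mul_right (hd7.pow_right _)
  have c2 : Nat.Coprime d' (P ^ i * 7 ^ j) := (hdP'.pow_right _).mul_right (hd7'.pow_right _)
  have e1 : d = d' := by
    apply Nat.dvd_antisymm
    · exact c1.dvd_of_dvd_mul_right (hxy ▸ dvd_mul_right _ _)
    · exact c2.dvd_of_dvd_mul_right (hxy ▸ dvd_mul_right _ _)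
  subst e1
  have hd0 : 0 < d := Nat.pos_of_dvd_of_pos hd (by norm_num)
  have hxy2 := Nat.eq_of_mul_eq_mul_left hd0 hxy
  have c3 : Nat.Coprime (P ^ i) (7 ^ j') := (hP7.pow_right _).pow_left _
  have c4 : Nat.Coprime (P ^ i') (7 ^ j) := (hP7.pow_right _).pow_left _
  have e2 : P ^ i = P ^ i' := by
    apply Nat.dvd_antisymm
    · exact c3.dvd_of_dvd_mul_right (hxy2 ▸ dvd_mul_right _ _)
    · exact c4.dvd_of_dvd_mul_right (hxy2 ▸ dvd_mul_right _ _)
  have e3 : i = i' := Nat.pow_right_injective (by omega : 2 ≤ P) e2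
  subst e3
  have hxy3 := Nat.eq_of_mul_eq_mul_left (pow_pos (by omega : 0 < P) i) hxy2
  have e4 : j = j' := Nat.pow_right_injective (by omega : 2 ≤ 7) hxy3
  rw [e4]

/-- The value of `ie` on `A₅ × ((ZMod P)² ⋊ C_{7^a})`. -/
lemma ie_eq (P : ℕ) [hP : Fact P.Prime] (h7 : 7 < P) (a c : ℕ) (hca : c ≤ a)
    (ψ : Multiplicative (ZMod (7 ^ a)) →* (ZMod P)ˣ)
    (hg : ∀ x, x ∈ Subgroup.zpowers (Multiplicative.ofAdd (1 : ZMod (7 ^ a))))
    (hr : orderOf (ψ (Multiplicative.ofAdd 1)) = 7 ^ c) :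
    ie (A5.Alt5 × AG ψ) = 21 * (a + 1) + 4 * c := by
  have : NeZero (7 ^ a) := ⟨by positivity⟩
  have hfin : Finite (Multiplicative (ZMod (7 ^ a))) :=
    Finite.of_equiv (ZMod (7 ^ a)) Multiplicative.ofAdd
  have hcard : Nat.card (Multiplicative (ZMod (7 ^ a))) = 7 ^ a := by
    rw [Nat.card_congr Multiplicative.toAdd, Nat.card_zmod]
  have hcop : Nat.Coprime (Nat.card A5.Alt5) (Nat.card (AG ψ)) := by
    rw [A5.card_A5, AG.card_AG, hcard]
    have h2 : Nat.Coprime P 2 := (Nat.coprime_primes hP.out (by norm_num)).mpr (by omega)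
    have h3 : Nat.Coprime P 3 := (Nat.coprime_primes hP.out (by norm_num)).mpr (by omega)
    have h5 : Nat.Coprime P 5 := (Nat.coprime_primes hP.out (by norm_num)).mpr (by omega)
    have h60 : 60 = 2 * 2 * 3 * 5 := by norm_num
    have hP60 : Nat.Coprime P 60 := by
      rw [h60]
      exact ((h2.mul_right h2).mul_right h3).mul_right h5
    refine Nat.Coprime.mul_right (hP60.symm.pow_right _) ?_
    exact Nat.Coprime.pow_right _ (by norm_num)
  have hset : {n : ℕ | 0 < n ∧ ∃ S : Subgroup (A5.Alt5 × AG ψ), Nat.card S = n ∧ ¬ S.Normal}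
      = ord P '' (X a c : Set (ℕ × ℕ × ℕ)) := by
    ext n
    rw [Set.mem_ofPred_eq, nonnormal_prod hcop]
    constructor
    · rintro ⟨u, v, rfl, (⟨⟨A, rfl, hA⟩, hB⟩ | ⟨hA, hB⟩)⟩
      · rw [orders hg hcard] at hB
        obtain ⟨i, hi, j, hj, rfl⟩ := hB
        refine ⟨(Nat.card A, i, j), ?_, rfl⟩
        have h1 := (A5.orders (Nat.card A)).mp ⟨A, rfl⟩
        have h2 := mt (A5.normal_iff A).mpr hA
        simp only [X, Finset.coe_union, Set.mem_union, Finset.mem_coe, Finset.mem_product,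
          Finset.mem_range, Finset.mem_Ioc]
        left
        refine ⟨?_, by omega, by omega⟩
        generalize Nat.card A = m at *
        simp only [Finset.mem_insert, Finset.mem_singleton] at *
        omega
      · rw [nonnormal_orders (by omega) hg hcard hr hca] at hB
        obtain ⟨i, hi, j, hj, hja, rfl⟩ := hB
        refine ⟨(u, i, j), ?_, rfl⟩
        have h1 := (A5.orders u).mp hA
        simp only [X, Finset.coe_union, Set.mem_union, Finset.mem_coe, Finset.mem_product,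
          Finset.mem_range, Finset.mem_Ioc, Finset.mem_insert, Finset.mem_singleton] at h1 ⊢
        omega
    · rintro ⟨⟨d, i, j⟩, hx, rfl⟩
      simp only [X, Finset.coe_union, Set.mem_union, Finset.mem_coe, Finset.mem_product,
          Finset.mem_range, Finset.mem_Ioc] at hx
      rcases hx with ⟨hd, hi, hj⟩ | ⟨hd, hi, hj, hja⟩
      · refine ⟨d, P ^ i * 7 ^ j, rfl, Or.inl ⟨?_, ?_⟩⟩
        · obtain ⟨A, hA⟩ := (A5.orders d).mpr (by
            simp only [Finset.mem_insert, Finset.mem_singleton] at hd ⊢; omega)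
          refine ⟨A, hA, fun hN => ?_⟩
          rw [A5.normal_iff, hA] at hN
          simp only [Finset.mem_insert, Finset.mem_singleton] at hd
          omega
        · rw [orders hg hcard]
          exact ⟨i, by omega, j, by omega, rfl⟩
      · refine ⟨d, P ^ i * 7 ^ j, rfl, Or.inr ⟨?_, ?_⟩⟩
        · rw [A5.orders]
          simp only [Finset.mem_insert, Finset.mem_singleton] at hd ⊢; omega
        · rw [nonnormal_orders (by omega) hg hcard hr hca]
          exact ⟨i, hi, j, hj, hja, rfl⟩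
  rw [ie, hset, (ord_inj P h7 a c).ncard_image, Set.ncard_coe_finset, card_X a c hca]

lemma main (k : ℕ) (hk : 441 + 84 ≤ k) :
    ∃ (G : Type) (_ : Group G), Finite G ∧ ¬ Group.IsSolvable G ∧ ¬ IsSimpleGroup G ∧ ie G = k := by
  -- choose c, a
  obtain ⟨c, a, hca, hkk⟩ : ∃ c a, c ≤ a ∧ k = 21 * (a + 1) + 4 * c := by
    have : (4 * (16 * k % 21)) % 21 = k % 21 := by omega
    refine ⟨16 * k % 21, (k - 4 * (16 * k % 21)) / 21 - 1, ?_, ?_⟩ <;> omega
  obtain ⟨P, hP, hP7, hmod⟩ := Nat.exists_prime_gt_modEq_one (k := 7 ^ c) 7 (by positivity)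
  have : Fact P.Prime := ⟨hP⟩
  have hd : 7 ^ c ∣ P - 1 := (Nat.modEq_iff_dvd' hP.one_lt.le).mp hmod.symm
  obtain ⟨ψ, hg, hr⟩ := exists_action (P := P) a c hca hd
  have : NeZero (7 ^ a) := ⟨by positivity⟩
  have hfin : Finite (Multiplicative (ZMod (7 ^ a))) :=
    Finite.of_equiv (ZMod (7 ^ a)) Multiplicative.ofAdd
  refine ⟨A5.Alt5 × AG ψ, inferInstance, inferInstance, ?_, ?_, ?_⟩
  · intro hs
    have hsimp : IsSimpleGroup A5.Alt5 := alternatingGroup.isSimpleGroup (by simp)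
    have h1 : Group.IsSolvable A5.Alt5 :=
      Group.isSolvable_of_surjective (f := MonoidHom.fst A5.Alt5 (AG ψ))
        (fun x => ⟨(x, 1), rfl⟩)
    have h2 := IsSimpleGroup.comm_iff_isSolvable.mpr h1
    obtain ⟨A, hA⟩ := (A5.orders 2).mpr (by decide)
    have h3 : A.Normal := ⟨fun x hx g => by rw [h2 g x, mul_inv_cancel_right]; exact hx⟩
    rw [A5.normal_iff, hA] at h3
    omega
  · intro hs
    have h1 : ((⊤ : Subgroup A5.Alt5).prod (⊥ : Subgroup (AG ψ))).Normal :=
      (prod_normal_iff _ _).mpr ⟨inferInstance, inferInstance⟩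
    have h2 : Nat.card ((⊤ : Subgroup A5.Alt5).prod (⊥ : Subgroup (AG ψ))) = 60 := by
      rw [card_prod, Subgroup.card_top, A5.card_A5, Subgroup.card_bot]
    rcases h1.eq_bot_or_eq_top with h | h
    · rw [h, Subgroup.card_bot] at h2
      omega
    · rw [h, Subgroup.card_top, Nat.card_prod, A5.card_A5, AG.card_AG] at h2
      have h3 : 2 ≤ P ^ 2 := by nlinarith
      have h4 : 0 < Nat.card (Multiplicative (ZMod (7 ^ a))) := Nat.card_pos
      nlinarith
  · rw [ie_eq P (by omega) a c hca ψ hg hr, hkk]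

theorem result : {k : ℕ | IsSolubleNumber k}.Finite ∧
    {k : ℕ | IsAbsolutelySimpleNumber k}.Finite := by
  constructor
  · refine (Set.finite_lt_nat 525).subset fun k hk => ?_
    by_contra hlt
    obtain ⟨G, _, hfin, hns, -, hie⟩ := main k (not_lt.mp hlt)
    exact hns (hk.2 G hie)
  · refine (Set.finite_lt_nat 525).subset fun k hk => ?_
    by_contra hlt
    obtain ⟨G, _, hfin, hns, hnsi, hie⟩ := main k (not_lt.mp hlt)
    exact hk.2.2 G hns hnsi hie

end Pool.Agent.Results.MP_927db0_al.BothFinite
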